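import Mathlib

/-!
# Growth functions on commutative semirings and their spectral points
-/

set_option autoImplicit false

namespace Pool.Agent.H97.AS

open Filter Topology

theorem le_of_pow_le_succ_mul {x y : ℝ} (hx : 0 ≤ x) (hy : 0 ≤ y)
    (h : ∀ n : ℕ, x ^ n ≤ (n + 1) * y ^ n) : x ≤ y := by
  by_contra hcon
  push Not at hcon
  rcases hy.eq_or_lt with h0 | h0
  · have := h 1
    rw [← h0] at this
    simp at this
    rw [← h0] at hcon
    linarith
  · have hq : 1 < x / y := (one_lt_div h0).2 hcon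
    have hr : |y / x| < 1 := by
      rw [abs_of_nonneg (div_nonneg hy hx), div_lt_one (h0.trans hcon)]
      exact hcon
    have ht := tendsto_self_mul_const_pow_of_abs_lt_one hr
    have ht2 : Tendsto (fun n : ℕ => (y / x) ^ n) atTop (𝓝 0) :=
      tendsto_pow_atTop_nhds_zero_of_abs_lt_one hr
    have ht3 : Tendsto (fun n : ℕ => ((n : ℝ) + 1) * (y / x) ^ n) atTop (𝓝 0) := by
      have := ht.add ht2
      simp only [add_zero] at this
      refine this.congr fun n => ?_
      ring
    have hx0 : 0 < x := h0.trans hcon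
    have h1 : ∀ n : ℕ, 1 ≤ ((n : ℝ) + 1) * (y / x) ^ n := by
      intro n
      have := h n
      rw [div_pow, ← mul_div_assoc, le_div_iff₀ (pow_pos hx0 n), one_mul]
      exact this
    have := ge_of_tendsto' ht3 h1
    linarith

variable {S : Type*} [CommSemiring S]

/-- growth functions -/
structure Gr (Le : S → S → Prop) (N : S → ℝ) : Prop where
  nonneg : ∀ a, 0 ≤ N a
  add_le : ∀ a b, N (a + b) ≤ N a + N b
  mul_le : ∀ a b, N (a * b) ≤ N a * N b
  mono : ∀ a b, Le a b → N a ≤ N b
  nat_mul : ∀ (m : ℕ) (a : S), N ((m : S) * a) = m * N a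
  one : N 1 = 1
  pow : ∀ (a : S) (n : ℕ), N (a ^ n) = N a ^ n

/-- properties of the relation -/
structure IsRel (Le : S → S → Prop) : Prop where
  mul : ∀ a b c, Le a b → Le (c * a) (c * b)
  add : ∀ a b, Le a (a + b)
  one : ∀ a, a ≠ 0 → Le 1 a

/-- the shift of a growth function -/
noncomputable def shift (N : S → ℝ) (f : S) (g : S) : ℝ := ⨅ n : ℕ, N (f ^ n * g) / N f ^ n

section shift

variable {Le : S → S → Prop} {N : S → ℝ} (hLe : IsRel Le) (hN : Gr Le N) {f : S} (hf : f ≠ 0)

include hN in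
theorem Gr.zero : N 0 = 0 := by
  have := hN.nat_mul 0 0
  simpa using this

include hLe hN hf in
theorem Gr.one_le : 1 ≤ N f := by
  rw [← hN.one]
  exact hN.mono _ _ (hLe.one f hf)

include hLe hN hf in
theorem shift_anti (g : S) : Antitone fun n : ℕ => N (f ^ n * g) / N f ^ n := by
  have h1 : 0 < N f := lt_of_lt_of_le one_pos (hN.one_le hLe hf)
  refine antitone_nat_of_succ_le fun n => ?_
  rw [div_le_div_iff₀ (pow_pos h1 _) (pow_pos h1 _)]
  have h2 : N (f ^ (n + 1) * g) ≤ N f * N (f ^ n * g) := by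
    rw [pow_succ, mul_comm (f ^ n) f, mul_assoc]
    exact hN.mul_le _ _
  calc N (f ^ (n + 1) * g) * N f ^ n ≤ N f * N (f ^ n * g) * N f ^ n :=
        mul_le_mul_of_nonneg_right h2 (pow_nonneg h1.le _)
    _ = N (f ^ n * g) * N f ^ (n + 1) := by ring

include hLe hN hf in
theorem shift_tendsto (g : S) :
    Tendsto (fun n : ℕ => N (f ^ n * g) / N f ^ n) atTop (𝓝 (shift N f g)) := by
  have h1 : 0 < N f := lt_of_lt_of_le one_pos (hN.one_le hLe hf)
  refine tendsto_atTop_ciInf (shift_anti hLe hN hf g) ⟨0, ?_⟩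
  rintro _ ⟨n, rfl⟩
  exact div_nonneg (hN.nonneg _) (pow_nonneg h1.le _)

include hLe hN hf in
theorem shift_le (g : S) : shift N f g ≤ N g := by
  have h1 : 0 < N f := lt_of_lt_of_le one_pos (hN.one_le hLe hf)
  have := ciInf_le (f := fun n : ℕ => N (f ^ n * g) / N f ^ n) ⟨0, by
    rintro _ ⟨n, rfl⟩
    exact div_nonneg (hN.nonneg _) (pow_nonneg h1.le _)⟩ 0
  simpa [shift] using this

include hLe hN hf in
theorem shift_mul_self (g : S) : shift N f (f * g) = N f * shift N f g := by
  have h1 : 0 < N f := lt_of_lt_of_le one_pos (hN.one_le hLe hf)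
  have h2 := (shift_tendsto hLe hN hf g).comp (tendsto_add_atTop_nat 1)
  have h3 := (shift_tendsto hLe hN hf (f * g))
  have h4 : Tendsto (fun n : ℕ => N (f ^ n * (f * g)) / N f ^ n) atTop
      (𝓝 (N f * shift N f g)) := by
    refine (h2.const_mul (N f)).congr fun n => ?_
    simp only [Function.comp]
    rw [pow_succ f n, mul_assoc, pow_succ (N f) n]
    field_simp
  exact tendsto_nhds_unique h3 h4

include hLe hN hf in
theorem shift_gr : Gr Le (shift N f) := by
  have h1 : 0 < N f := lt_of_lt_of_le one_pos (hN.one_le hLe hf)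
  refine ⟨fun a => ?_, fun a b => ?_, fun a b => ?_, fun a b hab => ?_, fun m a => ?_, ?_,
    fun a n => ?_⟩
  · exact ge_of_tendsto' (shift_tendsto hLe hN hf a) fun n =>
      div_nonneg (hN.nonneg _) (pow_nonneg h1.le _)
  · refine le_of_tendsto_of_tendsto' (shift_tendsto hLe hN hf (a + b))
      ((shift_tendsto hLe hN hf a).add (shift_tendsto hLe hN hf b)) fun n => ?_
    rw [mul_add, ← add_div]
    exact div_le_div_of_nonneg_right (hN.add_le _ _) (pow_nonneg h1.le _)
  · have h2 := (shift_tendsto hLe hN hf (a * b)).comp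
      (tendsto_id.nsmul_atTop (n := 2) (by norm_num) : Tendsto (fun n : ℕ => 2 • n) atTop atTop)
    refine le_of_tendsto_of_tendsto' h2
      ((shift_tendsto hLe hN hf a).mul (shift_tendsto hLe hN hf b)) fun n => ?_
    simp only [Function.comp, id]
    rw [div_mul_div_comm, smul_eq_mul, two_mul, pow_add (N f)]
    refine div_le_div_of_nonneg_right ?_ (by positivity)
    have : f ^ (n + n) * (a * b) = (f ^ n * a) * (f ^ n * b) := by rw [pow_add]; ring
    rw [this]
    exact hN.mul_le _ _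
  · refine le_of_tendsto_of_tendsto' (shift_tendsto hLe hN hf a)
      (shift_tendsto hLe hN hf b) fun n => ?_
    exact div_le_div_of_nonneg_right (hN.mono _ _ (hLe.mul _ _ _ hab)) (pow_nonneg h1.le _)
  · refine tendsto_nhds_unique (shift_tendsto hLe hN hf ((m : S) * a))
      (((shift_tendsto hLe hN hf a).const_mul (m : ℝ)).congr fun n => ?_)
    rw [mul_left_comm, hN.nat_mul, mul_div_assoc]
  · refine tendsto_nhds_unique (shift_tendsto hLe hN hf 1)
      ((tendsto_const_nhds (x := (1 : ℝ))).congr fun n => ?_)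
    rw [mul_one, hN.pow, div_self (pow_pos h1 _).ne']
  · rcases Nat.eq_zero_or_pos n with rfl | hn
    · rw [pow_zero, pow_zero]
      refine tendsto_nhds_unique (shift_tendsto hLe hN hf 1)
        ((tendsto_const_nhds (x := (1 : ℝ))).congr fun n => ?_)
      rw [mul_one, hN.pow, div_self (pow_pos h1 _).ne']
    · have h2 := (shift_tendsto hLe hN hf (a ^ n)).comp
        (tendsto_id.nsmul_atTop (n := n) hn : Tendsto (fun m : ℕ => n • m) atTop atTop)
      refine tendsto_nhds_unique h2 (((shift_tendsto hLe hN hf a).pow n).congr fun m => ?_)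
      simp only [Function.comp, id]
      rw [div_pow, smul_eq_mul, ← hN.pow, mul_pow, ← pow_mul, ← pow_mul, mul_comm m n]

include hLe hN hf in
theorem shift_eig {a : S} {r : ℝ} (h : ∀ g, N (a * g) = r * N g) (g : S) :
    shift N f (a * g) = r * shift N f g := by
  refine tendsto_nhds_unique (shift_tendsto hLe hN hf (a * g))
    (((shift_tendsto hLe hN hf g).const_mul r).congr fun n => ?_)
  rw [mul_left_comm, h, mul_div_assoc]

end shift

/-- A growth function which is multiplicative is additive. -/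
theorem add_of_mul {Le : S → S → Prop} {N : S → ℝ} (hLe : IsRel Le) (hN : Gr Le N)
    (hmul : ∀ a b, N (a * b) = N a * N b) (a b : S) : N (a + b) = N a + N b := by
  refine le_antisymm (hN.add_le a b) ?_
  refine le_of_pow_le_succ_mul (add_nonneg (hN.nonneg a) (hN.nonneg b)) (hN.nonneg _)
    fun n => ?_
  rw [add_pow]
  have h1 : ∀ i ∈ Finset.range (n + 1), N a ^ i * N b ^ (n - i) * (n.choose i : ℝ) ≤
      N (a + b) ^ n := by
    intro i hi
    rw [← hN.pow (a + b) n, ← hN.pow, ← hN.pow, ← hmul, mul_comm _ ((n.choose i : ℕ) : ℝ),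
      ← hN.nat_mul]
    refine hN.mono _ _ ?_
    rw [add_pow, ← Finset.add_sum_erase _ _ hi]
    rw [mul_comm ((n.choose i : ℕ) : S)]
    exact hLe.add _ _
  calc ∑ i ∈ Finset.range (n + 1), N a ^ i * N b ^ (n - i) * (n.choose i : ℝ)
      ≤ ∑ i ∈ Finset.range (n + 1), N (a + b) ^ n := Finset.sum_le_sum h1
    _ = ((n : ℝ) + 1) * N (a + b) ^ n := by
        rw [Finset.sum_const, Finset.card_range, nsmul_eq_mul]; push_cast; ring

/-- Spectral points: for every growth function `ρ` and every `a ≠ 0` there is a semiring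
homomorphism `φ ≤ ρ` into the real numbers with `φ a = ρ a`. -/
theorem exists_point {Le : S → S → Prop} {ρ : S → ℝ} (hLe : IsRel Le) (hρ : Gr Le ρ)
    {a : S} (ha : a ≠ 0) :
    ∃ φ : S →+* ℝ, Gr Le φ ∧ (∀ g, φ g ≤ ρ g) ∧ φ a = ρ a := by
  let T : Set (S → ℝ)ᵒᵈ := {N | Gr Le (OrderDual.ofDual N) ∧
    ∀ g, (OrderDual.ofDual N) (a * g) = ρ a * (OrderDual.ofDual N) g}
  have hstart : OrderDual.toDual (shift ρ a) ∈ T :=
    ⟨shift_gr hLe hρ ha, fun g => shift_mul_self hLe hρ ha g⟩
  obtain ⟨M, hM1, hM2⟩ := zorn_le_nonempty₀ T (by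
    intro c hc hchain y hy
    -- the infimum of the chain
    have hbdd : ∀ g : S, BddBelow (Set.range fun N : c => (OrderDual.ofDual (N : (S → ℝ)ᵒᵈ)) g) := by
      intro g
      refine ⟨0, ?_⟩
      rintro _ ⟨N, rfl⟩
      exact (hc N.2).1.nonneg g
    have hne : Nonempty c := ⟨⟨y, hy⟩⟩
    let m : S → ℝ := fun g => ⨅ N : c, (OrderDual.ofDual (N : (S → ℝ)ᵒᵈ)) g
    have hm : ∀ (N : c) (g : S), m g ≤ (OrderDual.ofDual (N : (S → ℝ)ᵒᵈ)) g := fun N g =>
      ciInf_le (hbdd g) N
    have hap1 : ∀ (g : S) (ε : ℝ), 0 < ε → ∃ N : c,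
        (OrderDual.ofDual (N : (S → ℝ)ᵒᵈ)) g < m g + ε := by
      intro g ε hε
      exact exists_lt_of_ciInf_lt (lt_add_of_pos_right _ hε)
    have hap2 : ∀ (g h : S) (ε : ℝ), 0 < ε → ∃ N : c,
        (OrderDual.ofDual (N : (S → ℝ)ᵒᵈ)) g < m g + ε ∧
        (OrderDual.ofDual (N : (S → ℝ)ᵒᵈ)) h < m h + ε := by
      intro g h ε hε
      obtain ⟨N1, h1⟩ := hap1 g ε hε
      obtain ⟨N2, h2⟩ := hap1 h ε hε
      rcases hchain.total N1.2 N2.2 with h3 | h3
      · exact ⟨N2, lt_of_le_of_lt (h3 g) h1, h2⟩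
      · exact ⟨N1, h1, lt_of_le_of_lt (h3 h) h2⟩
    have hnn : ∀ g, 0 ≤ m g := fun g => le_ciInf fun N => (hc N.2).1.nonneg g
    refine ⟨OrderDual.toDual m, ⟨⟨hnn, fun g h => ?_, fun g h => ?_, fun g h hgh => ?_,
      fun n g => ?_, ?_, fun g n => ?_⟩, fun g => ?_⟩, fun z hz g => hm ⟨z, hz⟩ g⟩
    · refine le_of_forall_pos_le_add fun ε hε => ?_
      obtain ⟨N, h1, h2⟩ := hap2 g h (ε / 2) (by positivity)
      have h3 := (hc N.2).1.add_le g h
      have h4 := hm N (g + h)
      change m (g + h) ≤ m g + m h + ε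
      linarith
    · change m (g * h) ≤ m g * m h
      have ht : Tendsto (fun ε : ℝ => (m g + ε) * (m h + ε)) (𝓝[>] 0) (𝓝 (m g * m h)) := by
        have : Tendsto (fun ε : ℝ => (m g + ε) * (m h + ε)) (𝓝 0)
            (𝓝 ((m g + 0) * (m h + 0))) :=
          ((continuous_const.add continuous_id).mul (continuous_const.add continuous_id)).tendsto 0
        rw [add_zero, add_zero] at this
        exact this.mono_left nhdsWithin_le_nhds
      refine ge_of_tendsto ht ?_
      filter_upwards [self_mem_nhdsWithin] with ε hε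
      obtain ⟨N, h1, h2⟩ := hap2 g h ε hε
      calc m (g * h) ≤ _ := hm N (g * h)
        _ ≤ _ := (hc N.2).1.mul_le g h
        _ ≤ (m g + ε) * (m h + ε) :=
            mul_le_mul h1.le h2.le ((hc N.2).1.nonneg h) (add_nonneg (hnn g) (le_of_lt hε))
    · exact ciInf_mono (hbdd g) fun N => (hc N.2).1.mono g h hgh
    · change m ((n : S) * g) = n * m g
      have : ∀ N : c, (OrderDual.ofDual (N : (S → ℝ)ᵒᵈ)) ((n : S) * g) =
          n * (OrderDual.ofDual (N : (S → ℝ)ᵒᵈ)) g := fun N => (hc N.2).1.nat_mul n g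
      simp only [m, this]
      rw [Real.mul_iInf_of_nonneg (Nat.cast_nonneg n)]
    · change m 1 = 1
      have : ∀ N : c, (OrderDual.ofDual (N : (S → ℝ)ᵒᵈ)) 1 = 1 := fun N => (hc N.2).1.one
      simp only [m, this, ciInf_const]
    · change m (g ^ n) = m g ^ n
      apply le_antisymm
      · have ht : Tendsto (fun ε : ℝ => (m g + ε) ^ n) (𝓝[>] 0) (𝓝 (m g ^ n)) := by
          have : Tendsto (fun ε : ℝ => (m g + ε) ^ n) (𝓝 0) (𝓝 ((m g + 0) ^ n)) :=
            ((continuous_const.add continuous_id).pow n).tendsto 0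
          rw [add_zero] at this
          exact this.mono_left nhdsWithin_le_nhds
        refine ge_of_tendsto ht ?_
        filter_upwards [self_mem_nhdsWithin] with ε hε
        obtain ⟨N, h1⟩ := hap1 g ε hε
        calc m (g ^ n) ≤ _ := hm N (g ^ n)
          _ = _ := (hc N.2).1.pow g n
          _ ≤ (m g + ε) ^ n := pow_le_pow_left₀ ((hc N.2).1.nonneg g) h1.le n
      · refine le_ciInf fun N => ?_
        rw [(hc N.2).1.pow g n]
        exact pow_le_pow_left₀ (hnn g) (hm N g) n
    · change m (a * g) = ρ a * m g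
      have : ∀ N : c, (OrderDual.ofDual (N : (S → ℝ)ᵒᵈ)) (a * g) =
          ρ a * (OrderDual.ofDual (N : (S → ℝ)ᵒᵈ)) g := fun N => (hc N.2).2 g
      simp only [m, this]
      rw [Real.mul_iInf_of_nonneg (hρ.nonneg a)]) _ hstart
  set N : S → ℝ := OrderDual.ofDual M with hNdef
  have hN : Gr Le N := hM2.prop.1
  have hNa : ∀ g, N (a * g) = ρ a * N g := hM2.prop.2
  have hle : ∀ g, N g ≤ ρ g := fun g => (hM1 g).trans (shift_le hLe hρ ha g)
  have hmul : ∀ f g, N (f * g) = N f * N g := by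
    intro f g
    by_cases hf : f = 0
    · rw [hf, zero_mul, hN.zero, zero_mul]
    · have h1 : OrderDual.toDual (shift N f) ∈ T :=
        ⟨shift_gr hLe hN hf, fun g => shift_eig hLe hN hf hNa g⟩
      have h2 : M ≤ OrderDual.toDual (shift N f) := fun g => shift_le hLe hN hf g
      have h3 : ∀ g, shift N f g = N g := fun g =>
        le_antisymm (shift_le hLe hN hf g) (hM2.le_of_ge h1 h2 g)
      rw [← h3, shift_mul_self hLe hN hf, h3]
  refine ⟨{ toFun := N, map_one' := hN.one, map_mul' := hmul, map_zero' := hN.zero,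
            map_add' := add_of_mul hLe hN hmul }, hN, hle, ?_⟩
  have := hNa 1
  rw [mul_one, hN.one, mul_one] at this
  exact this

end Pool.Agent.H97.AS
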