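import Mathlib
import Pool.Agent.H97.AS.Abs
import Pool.Graph.R_seed8.TH671.DU.Dich

/-!
# The semiring of finite schemes
-/

set_option autoImplicit false

namespace Pool.Agent.H97.AS

open Filter Topology TensorProduct
open Pool.Agent.H826R3.SM Pool.Agent.TH671.DU

/-- finite-dimensional commutative algebras over `k` -/
structure FAlg (k : Type) [Field k] : Type 1 where
  /-- the underlying type -/
  carrier : Type
  /-- the ring structure -/
  [ring : CommRing carrier]
  /-- the algebra structure -/
  [alg : Algebra k carrier]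
  /-- finiteness -/
  [fin : Module.Finite k carrier]

attribute [instance] FAlg.ring FAlg.alg FAlg.fin

/-- isomorphism -/
instance falgSetoid (k : Type) [Field k] : Setoid (FAlg k) where
  r A B := Nonempty (A.carrier ≃ₐ[k] B.carrier)
  iseqv := ⟨fun _ => ⟨AlgEquiv.refl⟩, fun ⟨e⟩ => ⟨e.symm⟩, fun ⟨e⟩ ⟨f⟩ => ⟨e.trans f⟩⟩

/-- The isomorphism classes of finite-dimensional commutative `k`-algebras, that is, of finite
schemes over `k`. -/
def Cls (k : Type) [Field k] : Type 1 := Quotient (falgSetoid k)

/-- The class of `Spec A`. -/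
def cls (k : Type) [Field k] (A : Type) [CommRing A] [Algebra k A] [Module.Finite k A] : Cls k :=
  Quotient.mk (falgSetoid k) ⟨A⟩

variable {k : Type} [Field k]

theorem cls_eq_iff {A B : Type} [CommRing A] [Algebra k A] [Module.Finite k A] [CommRing B]
    [Algebra k B] [Module.Finite k B] : cls k A = cls k B ↔ Nonempty (A ≃ₐ[k] B) :=
  Quotient.eq (r := falgSetoid k)

theorem cls_eq {A B : Type} [CommRing A] [Algebra k A] [Module.Finite k A] [CommRing B]
    [Algebra k B] [Module.Finite k B] (e : A ≃ₐ[k] B) : cls k A = cls k B :=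
  cls_eq_iff.2 ⟨e⟩

@[elab_as_elim]
theorem cls_ind {P : Cls k → Prop}
    (h : ∀ (A : Type) [CommRing A] [Algebra k A] [Module.Finite k A], P (cls k A)) (a : Cls k) :
    P a := by
  induction a using Quotient.inductionOn with
  | h A => exact h A.carrier

/-- associativity of products -/
def prodAssocAlg (k : Type) [Field k] (A B C : Type) [CommRing A] [Algebra k A] [CommRing B]
    [Algebra k B] [CommRing C] [Algebra k C] : ((A × B) × C) ≃ₐ[k] A × (B × C) where
  toFun x := (x.1.1, x.1.2, x.2)
  invFun x := ((x.1, x.2.1), x.2.2)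
  left_inv _ := rfl
  right_inv _ := rfl
  map_mul' _ _ := rfl
  map_add' _ _ := rfl
  commutes' _ := rfl

/-- commutativity of products -/
def prodCommAlg (k : Type) [Field k] (A B : Type) [CommRing A] [Algebra k A] [CommRing B]
    [Algebra k B] : (A × B) ≃ₐ[k] B × A where
  toFun x := (x.2, x.1)
  invFun x := (x.2, x.1)
  left_inv _ := rfl
  right_inv _ := rfl
  map_mul' _ _ := rfl
  map_add' _ _ := rfl
  commutes' _ := rfl

instance : Zero (Cls k) := ⟨cls k PUnit⟩

instance : One (Cls k) := ⟨cls k k⟩

instance : Add (Cls k) := ⟨Quotient.map₂ (fun A B => ⟨A.carrier × B.carrier⟩)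
  fun _ _ ⟨e⟩ _ _ ⟨f⟩ => ⟨e.prodCongr f⟩⟩

instance : Mul (Cls k) := ⟨Quotient.map₂ (fun A B => ⟨A.carrier ⊗[k] B.carrier⟩)
  fun _ _ ⟨e⟩ _ _ ⟨f⟩ => ⟨Algebra.TensorProduct.congr e f⟩⟩

section basic

variable (A B : Type) [CommRing A] [Algebra k A] [Module.Finite k A] [CommRing B] [Algebra k B]
  [Module.Finite k B]

theorem cls_add : cls k A + cls k B = cls k (A × B) := rfl

theorem cls_mul : cls k A * cls k B = cls k (A ⊗[k] B) := rfl

theorem cls_zero : (0 : Cls k) = cls k PUnit := rfl

theorem cls_one : (1 : Cls k) = cls k k := rfl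

theorem cls_eq_zero_iff : cls k A = 0 ↔ Subsingleton A := by
  rw [cls_zero, cls_eq_iff]
  constructor
  · rintro ⟨e⟩
    exact e.toEquiv.subsingleton
  · intro h
    exact ⟨AlgEquiv.ofBijective
      { toFun := fun _ => PUnit.unit
        map_one' := rfl
        map_mul' := fun _ _ => rfl
        map_zero' := rfl
        map_add' := fun _ _ => rfl
        commutes' := fun _ => rfl }
      ⟨fun _ _ _ => Subsingleton.elim _ _, fun _ => ⟨0, rfl⟩⟩⟩

end basic

theorem subsingleton_tensor (A B : Type) [CommRing A] [Algebra k A] [CommRing B] [Algebra k B]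
    [Subsingleton A] : Subsingleton (A ⊗[k] B) := by
  refine subsingleton_of_zero_eq_one ?_
  rw [Algebra.TensorProduct.one_def, Subsingleton.elim (1 : A) 0, TensorProduct.zero_tmul]

/-- The finite schemes over `k` form a semiring: the sum is the disjoint union, the product is
the product of schemes. -/
noncomputable instance : CommSemiring (Cls k) where
  add_assoc a b c := by
    refine cls_ind (fun A _ _ _ => ?_) a
    refine cls_ind (fun B _ _ _ => ?_) b
    refine cls_ind (fun C _ _ _ => ?_) c
    exact cls_eq (prodAssocAlg k A B C)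
  zero_add a := by
    refine cls_ind (fun A _ _ _ => ?_) a
    rw [cls_zero, cls_add]
    exact cls_eq (AlgEquiv.uniqueProd (R := k) (A := A) (B := PUnit))
  add_zero a := by
    refine cls_ind (fun A _ _ _ => ?_) a
    rw [cls_zero, cls_add]
    exact cls_eq (AlgEquiv.prodUnique (R := k) (A := A) (B := PUnit))
  add_comm a b := by
    refine cls_ind (fun A _ _ _ => ?_) a
    refine cls_ind (fun B _ _ _ => ?_) b
    exact cls_eq (prodCommAlg k A B)
  left_distrib a b c := by
    refine cls_ind (fun A _ _ _ => ?_) a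
    refine cls_ind (fun B _ _ _ => ?_) b
    refine cls_ind (fun C _ _ _ => ?_) c
    exact cls_eq (Algebra.TensorProduct.prodRight k k A B C)
  right_distrib a b c := by
    refine cls_ind (fun A _ _ _ => ?_) a
    refine cls_ind (fun B _ _ _ => ?_) b
    refine cls_ind (fun C _ _ _ => ?_) c
    exact cls_eq ((Algebra.TensorProduct.comm k (A × B) C).trans
      ((Algebra.TensorProduct.prodRight k k C A B).trans
        (AlgEquiv.prodCongr (Algebra.TensorProduct.comm k C A)
          (Algebra.TensorProduct.comm k C B))))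
  zero_mul a := by
    refine cls_ind (fun A _ _ _ => ?_) a
    exact (cls_eq_zero_iff (k := k) (PUnit ⊗[k] A)).2 (subsingleton_tensor PUnit A)
  mul_zero a := by
    refine cls_ind (fun A _ _ _ => ?_) a
    have := subsingleton_tensor (k := k) PUnit A
    exact (cls_eq_zero_iff (k := k) (A ⊗[k] PUnit)).2
      (Algebra.TensorProduct.comm k A PUnit).toEquiv.subsingleton
  mul_assoc a b c := by
    refine cls_ind (fun A _ _ _ => ?_) a
    refine cls_ind (fun B _ _ _ => ?_) b
    refine cls_ind (fun C _ _ _ => ?_) c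
    exact cls_eq (Algebra.TensorProduct.assoc k k k A B C)
  one_mul a := by
    refine cls_ind (fun A _ _ _ => ?_) a
    rw [cls_one, cls_mul]
    exact cls_eq (Algebra.TensorProduct.lid k A)
  mul_one a := by
    refine cls_ind (fun A _ _ _ => ?_) a
    rw [cls_one, cls_mul]
    exact cls_eq (Algebra.TensorProduct.rid k k A)
  mul_comm a b := by
    refine cls_ind (fun A _ _ _ => ?_) a
    refine cls_ind (fun B _ _ _ => ?_) b
    exact cls_eq (Algebra.TensorProduct.comm k A B)
  nsmul := nsmulRec

theorem cls_pow (A : Type) [CommRing A] [Algebra k A] [Module.Finite k A] (n : ℕ) :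
    cls k (Pow k A n) = cls k A ^ n := by
  induction n with
  | zero => rw [pow_zero, cls_one]; exact cls_eq (powZero k A)
  | succ n ih => rw [pow_succ', ← ih, cls_mul]; exact cls_eq (powSucc k A n)

/-- the least degree of a smoothable scheme which contains a scheme of the given class -/
noncomputable def md (a : Cls k) : ℕ :=
  Quotient.lift (fun A : FAlg k => mdeg k A.carrier)
    (fun A B (h : Nonempty (A.carrier ≃ₐ[k] B.carrier)) => mdeg_congr h.some) a

theorem md_cls (A : Type) [CommRing A] [Algebra k A] [Module.Finite k A] :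
    md (cls k A) = mdeg k A := rfl

variable [IsAlgClosed k]

theorem md_add (a b : Cls k) : md (a + b) = md a + md b := by
  refine cls_ind (fun A _ _ _ => ?_) a
  refine cls_ind (fun B _ _ _ => ?_) b
  exact mdeg_prod' k A B

theorem md_mul_le (a b : Cls k) : md (a * b) ≤ md a * md b := by
  refine cls_ind (fun A _ _ _ => ?_) a
  refine cls_ind (fun B _ _ _ => ?_) b
  obtain ⟨D, hD⟩ := exists_fam (k := k) A
  obtain ⟨E, hE⟩ := exists_fam (k := k) B
  refine mdeg_le (Fam.join (mdeg_spec hD) (mdeg_spec hE)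
    (Algebra.TensorProduct.includeLeft : A →ₐ[k] A ⊗[k] B)
    (Algebra.TensorProduct.includeRight : B →ₐ[k] A ⊗[k] B) ?_)
  rw [eq_top_iff, ← Algebra.TensorProduct.adjoin_tmul_eq_top, Algebra.adjoin_le_iff]
  rintro _ ⟨a, b, rfl⟩
  have : a ⊗ₜ[k] b = (a ⊗ₜ[k] (1 : B)) * ((1 : A) ⊗ₜ[k] b) := by
    rw [Algebra.TensorProduct.tmul_mul_tmul, mul_one, one_mul]
  rw [this]
  exact Subalgebra.mul_mem _
    ((le_sup_left : (Algebra.TensorProduct.includeLeft : A →ₐ[k] A ⊗[k] B).range ≤ _) ⟨a, rfl⟩)
    ((le_sup_right : (Algebra.TensorProduct.includeRight : B →ₐ[k] A ⊗[k] B).range ≤ _) ⟨b, rfl⟩)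

theorem md_one : md (1 : Cls k) = 1 := by
  have h1 := fadd k k
  have h2 : mdeg k k ≤ 1 := mdeg_le fam_self
  have h3 : Module.finrank k k = 1 := Module.finrank_self k
  change mdeg k k = 1
  omega

theorem exists_point_hom (A : Type) [CommRing A] [Algebra k A] [Module.Finite k A]
    [Nontrivial A] : Nonempty (A →ₐ[k] k) := by
  obtain ⟨M, hM⟩ := Ideal.exists_maximal A
  have : Field (A ⧸ M) := Ideal.Quotient.field M
  have hint : Algebra.IsIntegral k (A ⧸ M) := inferInstance
  have hb : Function.Bijective (algebraMap k (A ⧸ M)) :=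
    IsAlgClosed.algebraMap_bijective_of_isIntegral
  exact ⟨((AlgEquiv.ofBijective (Algebra.ofId k (A ⧸ M)) hb).symm.toAlgHom).comp
    (Ideal.Quotient.mkₐ k M)⟩

theorem mdeg_le_of_surjective {A B : Type} [CommRing A] [Algebra k A] [Module.Finite k A]
    [CommRing B] [Algebra k B] (f : A →ₐ[k] B) (hf : Function.Surjective f) :
    mdeg k B ≤ mdeg k A := by
  obtain ⟨D, hD⟩ := exists_fam (k := k) A
  exact mdeg_le ((mdeg_spec hD).of_surjective f hf)

theorem md_le_mul {a : Cls k} (ha : a ≠ 0) (b : Cls k) : md b ≤ md (a * b) := by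
  revert ha
  refine cls_ind (fun A _ _ _ => ?_) a
  refine cls_ind (fun B _ _ _ => ?_) b
  intro ha
  have hnt : Nontrivial A := by
    rw [← not_subsingleton_iff_nontrivial]
    exact fun h => ha ((cls_eq_zero_iff A).2 h)
  obtain ⟨χ⟩ := exists_point_hom (k := k) A
  refine mdeg_le_of_surjective (Algebra.TensorProduct.lift
    ((Algebra.ofId k B).comp χ) (AlgHom.id k B) fun _ _ => Commute.all _ _) fun b => ⟨1 ⊗ₜ b, ?_⟩
  simp

end Pool.Agent.H97.AS
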