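import Mathlib
import Pool.Agent.H97.AS.Abs
import Pool.Graph.R_seed8.TH671.DU.Rate

/-!
# Growth rates of additive submultiplicative functions
-/

set_option autoImplicit false
set_option linter.unusedSectionVars false

namespace Pool.Agent.H97.AS

open Filter Topology
open Pool.Agent.TH671.DU

variable {S : Type*} [CommSemiring S]

/-- additive submultiplicative functions -/
structure IsRank (R : S → ℕ) : Prop where
  add : ∀ a b, R (a + b) = R a + R b
  mul_le : ∀ a b, R (a * b) ≤ R a * R b
  one : R 1 = 1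
  le_mul : ∀ a b, a ≠ 0 → R b ≤ R (a * b)

/-- the growth rate -/
noncomputable def rho (R : S → ℕ) (a : S) : ℝ := irate fun n => R (a ^ n)

/-- dominance -/
def Dom (R : S → ℕ) (a b : S) : Prop := ∀ c, rho R (a * c) ≤ rho R (b * c)

section

variable {R : S → ℕ} (hR : IsRank R)

include hR

theorem IsRank.zero : R 0 = 0 := by
  have := hR.add 0 0
  rw [add_zero] at this
  omega

theorem IsRank.sum {ι : Type*} (s : Finset ι) (f : ι → S) : R (∑ i ∈ s, f i) = ∑ i ∈ s, R (f i) := by
  classical
  induction s using Finset.induction_on with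
  | empty => simp [hR.zero]
  | insert a s ha ih => rw [Finset.sum_insert ha, Finset.sum_insert ha, hR.add, ih]

theorem IsRank.nat_mul (m : ℕ) (a : S) : R ((m : S) * a) = m * R a := by
  induction m with
  | zero => simp [hR.zero]
  | succ m ih => rw [Nat.cast_succ, add_mul, one_mul, hR.add, ih]; ring

theorem IsRank.one_le {a : S} (ha : a ≠ 0) : 1 ≤ R a := by
  have := hR.le_mul a 1 ha
  rwa [hR.one, mul_one] at this

theorem IsRank.le_pow_mul {a : S} (ha : a ≠ 0) (b : S) (n : ℕ) : R b ≤ R (a ^ n * b) := by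
  induction n with
  | zero => simp
  | succ n ih =>
    refine ih.trans ?_
    rw [pow_succ', mul_assoc]
    exact hR.le_mul _ _ ha

theorem IsRank.one_le_pow {a : S} (ha : a ≠ 0) (n : ℕ) : 1 ≤ R (a ^ n) := by
  have := hR.le_pow_mul ha 1 n
  rwa [hR.one, mul_one] at this

theorem IsRank.pow_add_le (a b : S) (n : ℕ) (c : S) : R (a ^ n * c) ≤ R ((a + b) ^ n * c) := by
  have : ∃ z, (a + b) ^ n = a ^ n + z := by
    induction n with
    | zero => exact ⟨0, by simp⟩
    | succ n ih =>
      obtain ⟨z, hz⟩ := ih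
      exact ⟨a ^ n * b + z * (a + b), by rw [pow_succ, hz, pow_succ]; ring⟩
  obtain ⟨z, hz⟩ := this
  rw [hz, add_mul, hR.add]
  omega

theorem rho_nonneg (a : S) : 0 ≤ rho R a := irate_nonneg _

theorem rho_zero : rho R (0 : S) = 0 := by
  refine le_antisymm ?_ (irate_nonneg _)
  refine (irate_le _ 0).trans ?_
  simp [hR.zero]

theorem rho_pow_le (a : S) (n : ℕ) : rho R a ^ n ≤ R (a ^ n) := by
  cases n with
  | zero => simp [hR.one]
  | succ n => exact irate_pow_le _ n

theorem rho_growth (a : S) (η : ℝ) (hη : 0 < η) :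
    ∃ C : ℝ, 0 ≤ C ∧ ∀ n, (R (a ^ n) : ℝ) ≤ C * (rho R a + η) ^ n := by
  by_cases ha : a = 0
  · refine ⟨1, zero_le_one, fun n => ?_⟩
    rw [ha, rho_zero hR, zero_add, one_mul]
    cases n with
    | zero => simp [hR.one]
    | succ n =>
      rw [zero_pow (Nat.succ_ne_zero n), hR.zero]
      simp only [Nat.cast_zero]
      positivity
  · exact growth_submul (fun n => R (a ^ n)) (fun n => hR.one_le_pow ha n)
      (fun m n => by
        simp only [pow_add]
        exact hR.mul_le _ _) η hη

theorem rho_le {a : S} {C x : ℝ} (hC : 0 ≤ C) (hx : 0 < x)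
    (h : ∀ n, (R (a ^ n) : ℝ) ≤ C * x ^ n) : rho R a ≤ x :=
  irate_le_of_growth _ C x hC hx h

omit hR in
theorem le_rho {a : S} {d : ℝ} (hd : 0 ≤ d) (h : ∀ n, d ^ (n + 1) ≤ R (a ^ (n + 1))) :
    d ≤ rho R a := le_irate _ d hd h

omit hR in
theorem rho_mono {a b : S} (h : ∀ n, R (a ^ (n + 1)) ≤ R (b ^ (n + 1))) :
    rho R a ≤ rho R b :=
  le_rho (irate_nonneg _) fun n => (irate_pow_le _ n).trans (by exact_mod_cast h n)

omit hR in
theorem limit_le {x : ℝ} {F : ℝ → ℝ} (hF : Continuous F) (h : ∀ η, 0 < η → x ≤ F η) :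
    x ≤ F 0 := by
  refine ge_of_tendsto (hF.continuousWithinAt (s := Set.Ioi 0) (x := 0)).tendsto ?_
  filter_upwards [self_mem_nhdsWithin] with η hη
  exact h η hη

theorem rho_isRel : IsRel (Dom R) := by
  refine ⟨fun a b c h d => ?_, fun a b c => ?_, fun a ha c => ?_⟩
  · have := h (c * d)
    rw [show c * a * d = a * (c * d) by ring, show c * b * d = b * (c * d) by ring]
    exact this
  · refine rho_mono fun n => ?_
    rw [mul_pow, mul_pow]
    exact hR.pow_add_le _ _ _ _
  · refine rho_mono fun n => ?_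
    rw [one_mul, mul_pow]
    exact hR.le_pow_mul ha _ _

theorem rho_gr : Gr (Dom R) (rho R) := by
  refine ⟨fun a => irate_nonneg _, fun a b => ?_, fun a b => ?_, fun a b h => ?_,
    fun m a => ?_, ?_, fun a m => ?_⟩
  · have := limit_le (x := rho R (a + b)) (F := fun η => (rho R a + η) + (rho R b + η))
      (by fun_prop) (fun η hη => ?_)
    · simpa using this
    · obtain ⟨C, hC, hA⟩ := rho_growth hR a η hη
      obtain ⟨D, hD, hB⟩ := rho_growth hR b η hη
      have ha0 := rho_nonneg hR a
      have hb0 := rho_nonneg hR b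
      refine rho_le hR (mul_nonneg hC hD) (by positivity) fun n => ?_
      rw [add_pow, hR.sum, add_pow]
      push_cast
      rw [Finset.mul_sum]
      refine Finset.sum_le_sum fun i _ => ?_
      rw [mul_comm _ ((n.choose i : ℕ) : S), hR.nat_mul]
      push_cast
      have h1 : (R (a ^ i * b ^ (n - i)) : ℝ) ≤ R (a ^ i) * R (b ^ (n - i)) := by
        exact_mod_cast hR.mul_le _ _
      calc (n.choose i : ℝ) * R (a ^ i * b ^ (n - i))
          ≤ (n.choose i : ℝ) * (R (a ^ i) * R (b ^ (n - i))) := by gcongr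
        _ ≤ (n.choose i : ℝ) * ((C * (rho R a + η) ^ i) * (D * (rho R b + η) ^ (n - i))) := by
            gcongr
            · exact hA i
            · exact hB (n - i)
        _ = _ := by ring
  · have := limit_le (x := rho R (a * b)) (F := fun η => (rho R a + η) * (rho R b + η))
      (by fun_prop) (fun η hη => ?_)
    · simpa using this
    · obtain ⟨C, hC, hA⟩ := rho_growth hR a η hη
      obtain ⟨D, hD, hB⟩ := rho_growth hR b η hη
      have ha0 := rho_nonneg hR a
      have hb0 := rho_nonneg hR b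
      refine rho_le hR (mul_nonneg hC hD) (by positivity) fun n => ?_
      rw [mul_pow]
      have h1 : (R (a ^ n * b ^ n) : ℝ) ≤ R (a ^ n) * R (b ^ n) := by
        exact_mod_cast hR.mul_le _ _
      calc (R (a ^ n * b ^ n) : ℝ) ≤ R (a ^ n) * R (b ^ n) := h1
        _ ≤ (C * (rho R a + η) ^ n) * (D * (rho R b + η) ^ n) := by
            gcongr
            · exact hA n
            · exact hB n
        _ = _ := by rw [mul_pow]; ring
  · have := h 1
    simpa using this
  · have ha0 := rho_nonneg hR a
    rcases Nat.eq_zero_or_pos m with rfl | hm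
    · simp [rho_zero hR]
    have hm' : (0 : ℝ) < m := by exact_mod_cast hm
    apply le_antisymm
    · have := limit_le (x := rho R ((m : S) * a)) (F := fun η => (m : ℝ) * (rho R a + η))
        (by fun_prop) (fun η hη => ?_)
      · simpa using this
      · obtain ⟨C, hC, hA⟩ := rho_growth hR a η hη
        refine rho_le hR hC (by positivity) fun n => ?_
        rw [mul_pow, ← Nat.cast_pow, hR.nat_mul, mul_pow]
        push_cast
        calc (m : ℝ) ^ n * R (a ^ n) ≤ (m : ℝ) ^ n * (C * (rho R a + η) ^ n) := by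
              gcongr
              exact hA n
          _ = _ := by ring
    · refine le_rho (by positivity) fun n => ?_
      have hcast : ((m : S) * a) ^ (n + 1) = ((m ^ (n + 1) : ℕ) : S) * a ^ (n + 1) := by
        rw [mul_pow]
        push_cast
        rfl
      rw [hcast, hR.nat_mul, mul_pow]
      push_cast
      gcongr
      exact rho_pow_le hR a (n + 1)
  · apply le_antisymm
    · refine (irate_le _ 0).trans ?_
      simp [hR.one]
    · refine le_rho zero_le_one fun n => ?_
      simp [hR.one]
  · have ha0 := rho_nonneg hR a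
    rcases Nat.eq_zero_or_pos m with rfl | hm
    · rw [pow_zero, pow_zero]
      apply le_antisymm
      · refine (irate_le _ 0).trans ?_
        simp [hR.one]
      · refine le_rho zero_le_one fun n => ?_
        simp [hR.one]
    apply le_antisymm
    · have := limit_le (x := rho R (a ^ m)) (F := fun η => (rho R a + η) ^ m)
        (by fun_prop) (fun η hη => ?_)
      · simpa using this
      · obtain ⟨C, hC, hA⟩ := rho_growth hR a η hη
        refine rho_le hR hC (by positivity) fun n => ?_
        rw [← pow_mul, ← pow_mul]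
        exact hA _
    · refine le_rho (by positivity) fun n => ?_
      rw [← pow_mul, ← pow_mul]
      exact rho_pow_le hR a _

/-- **Duality.** -/
theorem duality (a : S) (hnt : (1 : S) ≠ 0) :
    ∃ φ : S →+* ℝ, (∀ x, 0 ≤ φ x) ∧ (∀ x y, Dom R x y → φ x ≤ φ y) ∧
      (∀ x, φ x ≤ rho R x) ∧ φ a = rho R a := by
  by_cases ha : a = 0
  · obtain ⟨φ, h1, h2, h3⟩ := exists_point (rho_isRel hR) (rho_gr hR) hnt
    exact ⟨φ, h1.nonneg, h1.mono, h2, by rw [ha, map_zero, rho_zero hR]⟩
  · obtain ⟨φ, h1, h2, h3⟩ := exists_point (rho_isRel hR) (rho_gr hR) ha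
    exact ⟨φ, h1.nonneg, h1.mono, h2, h3⟩

/-- Monoid characters which are bounded by the growth rate extend to polynomials. -/
theorem poly_le {M : Type*} [CommMonoid M] (u : M →* S) (τ : M →* ℝ) (hτ : ∀ m, 0 ≤ τ m)
    (h : ∀ m, τ m ≤ rho R (u m)) (s : Finset M) (c : M → ℕ) :
    ∀ (i : ℕ) (m' : M), (∑ m ∈ s, (c m : ℝ) * τ m) ^ i * τ m' ≤
      rho R ((∑ m ∈ s, (c m : S) * u m) ^ i * u m') := by
  classical
  have hG := rho_gr hR
  have hrel := rho_isRel hR
  induction s using Finset.induction_on with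
  | empty =>
    intro i m'
    rw [Finset.sum_empty, Finset.sum_empty]
    cases i with
    | zero => simpa using h m'
    | succ i => simp [rho_zero hR]
  | insert m₀ s hm₀ ih =>
    intro i m'
    rw [Finset.sum_insert hm₀, Finset.sum_insert hm₀]
    set P := ∑ m ∈ s, (c m : ℝ) * τ m with hP
    set Q := ∑ m ∈ s, (c m : S) * u m with hQ
    have hP0 : 0 ≤ P := Finset.sum_nonneg fun m _ => mul_nonneg (Nat.cast_nonneg _) (hτ m)
    have hc0 : 0 ≤ (c m₀ : ℝ) * τ m₀ := mul_nonneg (Nat.cast_nonneg _) (hτ m₀)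
    by_cases hi : i = 0
    · subst hi
      simpa using h m'
    -- compare the powers
    have key : ∀ N : ℕ, (((c m₀ : ℝ) * τ m₀ + P) ^ i * τ m') ^ N ≤
        ((i * N : ℕ) + 1) * rho R (((c m₀ : S) * u m₀ + Q) ^ i * u m') ^ N := by
      intro N
      rw [← hG.pow, mul_pow, mul_pow, ← pow_mul, ← pow_mul, ← map_pow, ← map_pow]
      rw [add_pow, Finset.sum_mul]
      have h1 : ∀ l ∈ Finset.range (i * N + 1),
          ((c m₀ : ℝ) * τ m₀) ^ l * P ^ (i * N - l) * ((i * N).choose l : ℝ) * τ (m' ^ N) ≤
            rho R (((c m₀ : S) * u m₀ + Q) ^ (i * N) * u (m' ^ N)) := by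
        intro l hl
        have h2 := ih (i * N - l) (m₀ ^ l * m' ^ N)
        have h3 : ((c m₀ : ℝ) * τ m₀) ^ l * P ^ (i * N - l) * ((i * N).choose l : ℝ) *
            τ (m' ^ N) = (((i * N).choose l * c m₀ ^ l : ℕ) : ℝ) *
              (P ^ (i * N - l) * τ (m₀ ^ l * m' ^ N)) := by
          rw [map_mul, map_pow τ m₀ l, mul_pow]
          push_cast
          ring
        rw [h3]
        refine (mul_le_mul_of_nonneg_left h2 (Nat.cast_nonneg _)).trans ?_
        rw [← hG.nat_mul]
        rw [add_pow, Finset.sum_mul, ← Finset.add_sum_erase _ _ hl]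
        have h4 : ((((i * N).choose l * c m₀ ^ l : ℕ) : S) *
            (Q ^ (i * N - l) * u (m₀ ^ l * m' ^ N))) =
            ((c m₀ : S) * u m₀) ^ l * Q ^ (i * N - l) * ((i * N).choose l : S) *
              u (m' ^ N) := by
          rw [map_mul, map_pow u m₀ l, mul_pow]
          push_cast
          ring
        rw [h4]
        exact hG.mono _ _ (hrel.add _ _)
      calc ∑ l ∈ Finset.range (i * N + 1),
            ((c m₀ : ℝ) * τ m₀) ^ l * P ^ (i * N - l) * ((i * N).choose l : ℝ) * τ (m' ^ N)
          ≤ ∑ l ∈ Finset.range (i * N + 1),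
            rho R (((c m₀ : S) * u m₀ + Q) ^ (i * N) * u (m' ^ N)) := Finset.sum_le_sum h1
        _ = _ := by
            rw [Finset.sum_const, Finset.card_range, nsmul_eq_mul]
            push_cast
            ring
    set X := ((c m₀ : ℝ) * τ m₀ + P) ^ i * τ m' with hX
    set Y := rho R (((c m₀ : S) * u m₀ + Q) ^ i * u m') with hY
    have hX0 : 0 ≤ X := mul_nonneg (pow_nonneg (add_nonneg hc0 hP0) _) (hτ _)
    have hY0 : 0 ≤ Y := irate_nonneg _
    by_contra hcon
    push Not at hcon
    -- `i N + 1 ≤ i (N + 1)`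
    have h5 : ∀ N : ℕ, X ^ N ≤ i * (((N : ℝ) + 1) * Y ^ N) := by
      intro N
      refine (key N).trans ?_
      rw [← mul_assoc]
      refine mul_le_mul_of_nonneg_right ?_ (pow_nonneg hY0 _)
      have : (1 : ℝ) ≤ i := by exact_mod_cast Nat.one_le_iff_ne_zero.2 hi
      push_cast
      nlinarith
    rcases hY0.eq_or_lt with h0 | h0
    · have h6 := h5 1
      rw [← h0] at h6
      simp at h6
      rw [← h0] at hcon
      linarith
    · have hX1 : 0 < X := h0.trans hcon
      have hr : |Y / X| < 1 := by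
        rw [abs_of_nonneg (div_nonneg hY0 hX0), div_lt_one hX1]
        exact hcon
      have ht := tendsto_self_mul_const_pow_of_abs_lt_one hr
      have ht2 : Tendsto (fun n : ℕ => (Y / X) ^ n) atTop (𝓝 0) :=
        tendsto_pow_atTop_nhds_zero_of_abs_lt_one hr
      have ht3 : Tendsto (fun n : ℕ => (i : ℝ) * (((n : ℝ) + 1) * (Y / X) ^ n)) atTop (𝓝 0) := by
        have := (ht.add ht2).const_mul (i : ℝ)
        simp only [add_zero, mul_zero] at this
        refine this.congr fun n => ?_
        ring
      have h1 : ∀ n : ℕ, 1 ≤ (i : ℝ) * (((n : ℝ) + 1) * (Y / X) ^ n) := by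
        intro n
        have := h5 n
        rw [div_pow, ← mul_div_assoc, ← mul_div_assoc, le_div_iff₀ (pow_pos hX1 n), one_mul]
        exact this
      have := ge_of_tendsto' ht3 h1
      linarith

end

end Pool.Agent.H97.AS
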