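import Mathlib
import Pool.Agent.H97.AS.Cls
import Pool.Agent.H97.AS.Grow
import Pool.Graph.R_seed8.R566.DG.Ten
import Pool.Graph.R_seed8.R566.DG.Rk
import Pool.Graph.R_pool_sql_team_seeded_64922ed1.X308.Sq.Main

/-!
# Growth rates of the classes of finite schemes
-/

set_option autoImplicit false
set_option linter.unusedSectionVars false

namespace Pool.Agent.H97.AS

open Filter Topology TensorProduct PowerSeries
open Pool.Agent.H826R3.SM Pool.Agent.TH671.DU Pool.Agent.R566.DG Pool.Agent.X308.Sq

variable {k : Type} [Field k] [IsAlgClosed k]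

theorem md_isRank : IsRank (md : Cls k → ℕ) :=
  ⟨md_add, md_mul_le, md_one, fun _ b ha => md_le_mul ha b⟩

theorem rate_eq_rho (A : Type) [CommRing A] [Algebra k A] [Module.Finite k A] :
    rate k A = rho md (cls k A) := by
  rw [rate_eq]
  unfold rho
  congr 1
  funext n
  rw [← cls_pow, md_cls]

/-- growth rates of classes -/
noncomputable def growth (a : Cls k) : ℝ :=
  Quotient.lift (fun A : FAlg k => rate k A.carrier)
    (fun A B (h : Nonempty (A.carrier ≃ₐ[k] B.carrier)) => by
      rw [rate_eq_rho, rate_eq_rho, cls_eq h.some]) a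

theorem growth_cls (A : Type) [CommRing A] [Algebra k A] [Module.Finite k A] :
    growth (cls k A) = rate k A := rfl

theorem growth_eq (a : Cls k) : growth a = rho md a := by
  refine cls_ind (fun A _ _ _ => ?_) a
  exact rate_eq_rho A

/-- comparison of all products -/
theorem dom_of_md_le {a b : Cls k} (h : ∀ c, md (a * c) ≤ md (b * c)) (c : Cls k) :
    growth (a * c) ≤ growth (b * c) := by
  rw [growth_eq, growth_eq]
  have h1 : ∀ n : ℕ, ∀ c, md (a ^ n * c) ≤ md (b ^ n * c) := by
    intro n
    induction n with
    | zero => intro c; simp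
    | succ n ih =>
      intro c
      calc md (a ^ (n + 1) * c) = md (a ^ n * (a * c)) := by rw [pow_succ, mul_assoc]
        _ ≤ md (b ^ n * (a * c)) := ih _
        _ = md (a * (b ^ n * c)) := by congr 1; ring
        _ ≤ md (b * (b ^ n * c)) := h _
        _ = md (b ^ (n + 1) * c) := by congr 1; ring
  refine rho_mono fun n => ?_
  rw [mul_pow, mul_pow]
  exact h1 _ _

theorem md_le_of_subquotient {A B : Type} [CommRing A] [Algebra k A] [Module.Finite k A]
    [CommRing B] [Algebra k B] [Module.Finite k B] (h : Subquotient k A B) (c : Cls k) :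
    md (cls k A * c) ≤ md (cls k B * c) := by
  refine cls_ind (fun C _ _ _ => ?_) c
  change mdeg k (A ⊗[k] C) ≤ mdeg k (B ⊗[k] C)
  obtain ⟨S, g, hg⟩ := h
  obtain ⟨D, hD⟩ := exists_fam (k := k) (B ⊗[k] C)
  have hinj : Function.Injective (Algebra.TensorProduct.map S.val (AlgHom.id k C)) := by
    have := Module.Flat.rTensor_preserves_injective_linearMap (M := C) S.val.toLinearMap
      Subtype.val_injective
    exact this
  have h1 := fam_of_injective (mdeg_spec hD)
    (Algebra.TensorProduct.map S.val (AlgHom.id k C)) hinj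
  refine mdeg_le (h1.of_surjective (Algebra.TensorProduct.map g (AlgHom.id k C)) ?_)
  exact TensorProduct.map_surjective hg Function.surjective_id

theorem dg_refl (C : Type) [CommRing C] [Algebra k C] [Module.Finite k C] : Dg k C C := by
  have hC : Module.Free k C := inferInstance
  refine ⟨k⟦X⟧ ⊗[k] C, inferInstance, inferInstance, 0, 0, LinearMap.id, LinearMap.id,
    (Algebra.TensorProduct.lift
      (({ (PowerSeries.constantCoeff (R := k)) with
          commutes' := fun r => by
            change PowerSeries.constantCoeff (algebraMap k k⟦X⟧ r) = r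
            rw [PowerSeries.algebraMap_apply]
            simp } : k⟦X⟧ →ₐ[k] k)
        |> (Algebra.ofId k C).comp)
      (AlgHom.id k C) fun _ _ => Commute.all _ _ : (k⟦X⟧ ⊗[k] C) →ₐ[k] C).toRingHom,
    inferInstance, inferInstance, ?_, ?_, ?_, ?_, ?_⟩
  · intro x y
    simp
  · simp
  · intro x
    simp
  · intro x
    refine ⟨1 ⊗ₜ x, ?_⟩
    simp
  · intro r
    simp [Algebra.TensorProduct.algebraMap_apply]

theorem md_le_of_deg {A A₀ : Type} [CommRing A] [Algebra k A] [Module.Finite k A]
    [CommRing A₀] [Algebra k A₀] [Module.Finite k A₀] (h : IsDeg k A A₀) (c : Cls k) :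
    md (cls k A₀ * c) ≤ md (cls k A * c) := by
  refine cls_ind (fun C _ _ _ => ?_) c
  change mdeg k (A₀ ⊗[k] C) ≤ mdeg k (A ⊗[k] C)
  obtain ⟨D, hD⟩ := exists_fam (k := k) (A ⊗[k] C)
  exact mdeg_le (Fam.dg (mdeg_spec hD) (h.dg.tensor (dg_refl C)))

/-- the degree -/
noncomputable def degree (k : Type) [Field k] : Cls k →+* ℝ where
  toFun a := Quotient.lift (fun A : FAlg k => (Module.finrank k A.carrier : ℝ))
    (fun A B (h : Nonempty (A.carrier ≃ₐ[k] B.carrier)) => by
      change (Module.finrank k A.carrier : ℝ) = Module.finrank k B.carrier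
      rw [h.some.toLinearEquiv.finrank_eq]) a
  map_one' := by
    change (Module.finrank k k : ℝ) = 1
    simp
  map_mul' a b := by
    refine cls_ind (fun A _ _ _ => ?_) a
    refine cls_ind (fun B _ _ _ => ?_) b
    change (Module.finrank k (A ⊗[k] B) : ℝ) = Module.finrank k A * Module.finrank k B
    rw [Module.finrank_tensorProduct]
    push_cast
    rfl
  map_zero' := by
    change (Module.finrank k PUnit : ℝ) = 0
    rw [Module.finrank_zero_of_subsingleton, Nat.cast_zero]
  map_add' a b := by
    refine cls_ind (fun A _ _ _ => ?_) a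
    refine cls_ind (fun B _ _ _ => ?_) b
    change (Module.finrank k (A × B) : ℝ) = Module.finrank k A + Module.finrank k B
    rw [Module.finrank_prod]
    push_cast
    rfl

theorem degree_cls (A : Type) [CommRing A] [Algebra k A] [Module.Finite k A] :
    degree k (cls k A) = Module.finrank k A := rfl

end Pool.Agent.H97.AS
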